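import Pool.Agent.H964.QC.Defs

/-! # Project QC (helper964): statements of the tasks

Aim: MP_f3a553_pr Q1: Gaussian fluctuations of `log W_N` in the whole quasi-critical regime. -/

set_option autoImplicit false

open MeasureTheory ProbabilityTheory Filter Finset

namespace Pool.Agent.H964.QC

/-! ## Deterministic sequences -/

/-- RR: elementary bounds for the return probabilities. `(C(2n,n)/4^n)^2 ≤ 1/(2n+1)` and `≥ 1/(4n)` by induction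
(`C(2n+2,n+1) = 2(2n+1)/(n+1) C(2n,n)`), then comparison of sums with logarithms. -/
def S_RR : Prop := (∀ n : ℕ, 0 < rr n) ∧ (∀ n : ℕ, rr n ≤ 1 / (2 * (n : ℝ) + 1)) ∧
  (∀ n : ℕ, 1 ≤ n → 1 / (4 * (n : ℝ)) ≤ rr n) ∧ Antitone rr ∧
  (∀ a b : ℕ, 1 ≤ a → a ≤ b → RR b - RR a ≤ 1 / 2 * Real.log ((b : ℝ) / a)) ∧
  (∀ a b : ℕ, a ≤ b → 1 / 4 * Real.log (((b : ℝ) + 1) / ((a : ℝ) + 1)) ≤ RR b - RR a) ∧
  (∀ b : ℕ, 1 ≤ b → RR b ≤ 1 / 2 + 1 / 2 * Real.log b)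

/-- UU: bounds for the second moment sequence. -/
def S_UU : Prop := (∀ (s : ℝ) (n : ℕ), 0 ≤ s → s * RR n < 1 → 1 ≤ UU s n ∧ UU s n ≤ 1 / (1 - s * RR n)) ∧
  ∃ C : ℝ, 1 ≤ C ∧ ∀ (s : ℝ) (n : ℕ), 0 ≤ s → s * RR n < 1 → 1 / (1 - s * RR n + C * s) ≤ UU s n

/-- DD: bounds for the pair correlation sequence. -/
def S_DD : Prop := ∃ C : ℝ, 1 ≤ C ∧ ∀ (s E : ℝ) (T : ℕ), 0 < s → s * RR T < 1 → E = 1 / (1 - s * RR T) →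
  C * s * E ≤ 1 → ∀ m n : ℕ, 1 ≤ m → n ≤ T → 0 ≤ DD s m n ∧ DD s m n ≤ C * E / m ∧
    (1 ≤ n → DD s m n ≤ C * E / n * (1 + s * E * Real.log (1 + (n : ℝ) / m)))

/-- CLN: the sum that controls the closeness functional after a block. -/
def S_CLN : Prop := ∃ C : ℝ, 1 ≤ C ∧ ∀ (s E : ℝ) (T : ℕ) (a : ℕ → ℝ), 0 < s → 1 ≤ T → s * RR T < 1 →
  E = 1 / (1 - s * RR T) → C * s * E ≤ 1 → (∀ k, 0 ≤ a k) → (∀ k, 1 ≤ k → a k ≤ rr k) →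
  s * E * ∑ k ∈ Finset.Icc 1 T, a k ≤ 1 →
  ∑ m ∈ Finset.Icc 1 (2 * T), 1 / Real.sqrt m *
    (rr (m + T) + s * ∑ k ∈ Finset.Icc 1 T, a k * DD s m (T - k)) ≤ C / Real.sqrt T

/-- HH: sums with the weight function of the ages. -/
def S_HH : Prop := ∀ g : ℝ, 0 < g → g ≤ 1 / 4 → ∃ C : ℝ, 1 ≤ C ∧
  (∀ t : ℕ, Antitone (hh g t)) ∧
  (∀ t T a : ℕ, 1 ≤ t → ∑ k ∈ Finset.Icc 1 T, hh g t k / ((a : ℝ) + k) ≤
    C * (1 + Real.log (1 + (T : ℝ) / t)) * hh g t a) ∧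
  (∀ t T a : ℕ, 1 ≤ t → hh g t 0 * ∑ k ∈ Finset.Icc 1 T, 1 / ((k : ℝ) * ((a : ℝ) + k)) ≤ C * hh g t a)

/-! ## Free evolution and overlaps -/

/-- OV: elementary properties of the free evolution of weights. -/
def S_OV : Prop := ∀ (V : Type) [Fintype V] [DecidableEq V] (C0 : ℝ) (N0 : ℕ) (W : Wlk V C0 N0) (w : V → ℝ),
  (∀ x, 0 ≤ w x) →
  (∀ m z, 0 ≤ wt W w m z) ∧ (wt W w 0 = w) ∧ (∀ m k, wt W (wt W w m) k = wt W w (m + k)) ∧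
  (∀ m, ∑ z, wt W w m z = ∑ z, w z) ∧ (∀ m k, ov W w (m + k) ≤ ov W w m) ∧
  (∀ m k, ov W (wt W w m) k = ov W w (m + k)) ∧
  (∑ z, w z = 1 → (∀ m, m ≤ N0 → ov W w m ≤ rr m) ∧
    (∀ m z, 1 ≤ m → m ≤ N0 → wt W w m z ≤ C0 / m) ∧
    (∀ m, 1 ≤ m → m ≤ N0 → ov W w m ≤ C0 / m)) ∧
  (∀ t B, Good W t B w → ∀ m, 1 ≤ m → m ≤ N0 → rr m - 2 * C0 * (B * t) / (m : ℝ) ^ 2 ≤ ov W w m) ∧
  (∀ m x y, m ≤ N0 → W.K (2 * m) x y ≤ rr m)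

/-- GS: sums of overlaps of good weights. -/
def S_GS : Prop := ∀ C0 : ℝ, 1 ≤ C0 → ∃ C : ℝ, 1 ≤ C ∧
  ∀ (V : Type) [Fintype V] [DecidableEq V] (N0 : ℕ) (W : Wlk V C0 N0) (w : V → ℝ) (t T : ℕ) (B : ℝ),
  1 ≤ t → 1 ≤ B → t + T ≤ N0 → Good W t B w →
  (∑ m ∈ Finset.Icc 1 T, ov W w m ≤ RR (t + T) - RR t + C * (1 + Real.log B)) ∧
  (t ≤ T → RR (t + T) - RR t - C * (1 + Real.log B) ≤ ∑ m ∈ Finset.Icc 1 (T / 2), ov W w m) ∧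
  (∑ m ∈ Finset.Icc 1 T, ov W w m * hh (1 / 4) t m ≤ C * (Real.sqrt B + Real.log (1 + (T : ℝ) / t))) ∧
  (∑ m ∈ Finset.Icc 1 T, ov W w m / m ≤ C * B / Real.sqrt t)

/-! ## Noise: measurability, independence, one layer -/

/-- MEAS: positivity, measurability and integrability of the fields. -/
def S_MEAS : Prop := ∀ (V : Type) [Fintype V] [DecidableEq V] (C0 : ℝ) (N0 : ℕ) (W : Wlk V C0 N0)
  (Ω : Type) [MeasurableSpace Ω] (P : Measure Ω) [IsProbabilityMeasure P] (s2 κ : ℝ) (η : ℕ → V → Ω → ℝ),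
  Noise P s2 κ η →
  (∀ n v, MemLp (η n v) 4 P) ∧
  (∀ (x : ℕ → V → ℝ) (j : ℕ) (y : V), (∀ n v, -1 < x n v) → 0 < Zr W x j y) ∧
  (∀ (x : ℕ → V → ℝ) (j : ℕ), Zr W x j = Zr W (cut j x) j) ∧
  (∀ j y, Measurable (fun x : ℕ → V → ℝ => Zr W x j y)) ∧
  (∀ T (w : V → ℝ) z, Measurable (fun x : ℕ → V → ℝ => fwd W x T w z)) ∧
  (∀ (x : ℕ → V → ℝ) (T : ℕ) (w : V → ℝ), fwd W x T w = fwd W (cut T x) T w) ∧
  (Measurable (cfg η)) ∧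
  (∀ j y, MemLp (fun ω => Zr W (cfg η ω) j y) 4 P) ∧ (∀ j y, ∫ ω, Zr W (cfg η ω) j y ∂P = 1) ∧
  (∀ (w : V → ℝ) T z, MemLp (fun ω => fwd W (cfg η ω) T w z) 4 P) ∧
  (∀ (w : V → ℝ) T z, ∫ ω, fwd W (cfg η ω) T w z ∂P = wt W w T z)

/-- IND: independence of past and future layers; shifted noise is again a noise. -/
def S_IND : Prop := ∀ (V : Type) [Fintype V] [DecidableEq V]
  (Ω : Type) [MeasurableSpace Ω] (P : Measure Ω) [IsProbabilityMeasure P] (s2 κ : ℝ) (η : ℕ → V → Ω → ℝ),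
  Noise P s2 κ η → ∀ j : ℕ,
  IndepFun (fun ω => cut j (cfg η ω)) (fun ω => sft (j + 1) (cfg η ω)) P ∧
  IndepFun (fun ω => cut j (cfg η ω)) (fun ω (v : V) => η (j + 1) v ω) P ∧
  Noise P s2 κ (fun n v => η (j + n) v)

/-- FRZ: independence as an iterated integral with an independent copy. -/
def S_FRZ : Prop := ∀ (Ω E1 E2 F : Type) [MeasurableSpace Ω] [MeasurableSpace E1] [MeasurableSpace E2]
  [NormedAddCommGroup F] [NormedSpace ℝ F] [MeasurableSpace F] [BorelSpace F] [SecondCountableTopology F]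
  [CompleteSpace F]
  (P : Measure Ω) [IsProbabilityMeasure P] (X : Ω → E1) (Y : Ω → E2) (f : E1 × E2 → F),
  Measurable X → Measurable Y → Measurable f → IndepFun X Y P → Integrable (fun ω => f (X ω, Y ω)) P →
  (∫ ω, f (X ω, Y ω) ∂P = ∫ ω, (∫ ω', f (X ω, Y ω') ∂P) ∂P) ∧
  Integrable (fun ω => ∫ ω', f (X ω, Y ω') ∂P) P ∧ (∀ᵐ ω ∂P, Integrable (fun ω' => f (X ω, Y ω')) P)

/-- ALG: one layer of noise, fourth order moments. Expand and use independence. -/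
def S_ALG : Prop := ∀ (V : Type) [Fintype V] [DecidableEq V]
  (Ω : Type) [MeasurableSpace Ω] (P : Measure Ω) [IsProbabilityMeasure P] (s2 κ : ℝ) (η : ℕ → V → Ω → ℝ),
  Noise P s2 κ η → ∀ (n : ℕ) (A B : ℝ) (g h : V → ℝ), (∀ z, 0 ≤ g z) → (∀ z, 0 ≤ h z) →
  (∫ ω, (A + ∑ z, g z * η n z ω) ^ 2 ∂P = A ^ 2 + s2 * ∑ z, g z ^ 2) ∧
  (∫ ω, (A + ∑ z, g z * η n z ω) ^ 2 * (B + ∑ z, h z * η n z ω) ^ 2 ∂P ≤
    A ^ 2 * B ^ 2 + s2 * (A ^ 2 * ∑ z, h z ^ 2) + s2 * (B ^ 2 * ∑ z, g z ^ 2)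
      + 4 * s2 * (|A| * |B| * ∑ z, g z * h z)
      + 2 * κ * s2 * (|A| * ∑ z, g z * h z ^ 2) + 2 * κ * s2 * (|B| * ∑ z, g z ^ 2 * h z)
      + κ * s2 * (∑ z, g z ^ 2 * h z ^ 2) + s2 ^ 2 * (∑ z, ∑ z', g z ^ 2 * h z' ^ 2)
      + 2 * s2 ^ 2 * (∑ z, ∑ z', g z * h z * (g z' * h z'))) ∧
  (∫ ω, (A + ∑ z, g z * η n z ω) ^ 4 ∂P ≤
    A ^ 4 + 6 * s2 * (A ^ 2 * ∑ z, g z ^ 2) + 4 * κ * s2 * (|A| * ∑ z, g z ^ 3)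
      + 3 * s2 ^ 2 * (∑ z, ∑ z', g z ^ 2 * g z' ^ 2) + κ * s2 * ∑ z, g z ^ 4)

/-! ## One-step inequalities for the fourth order correlations -/

/-- T1: one step for `G4`. -/
def S_T1 : Prop := ∀ (V : Type) [Fintype V] [DecidableEq V] (C0 : ℝ) (N0 : ℕ) (W : Wlk V C0 N0)
  (Ω : Type) [MeasurableSpace Ω] (P : Measure Ω) [IsProbabilityMeasure P] (s2 κ : ℝ) (η : ℕ → V → Ω → ℝ),
  0 ≤ s2 → 0 ≤ κ → Noise P s2 κ η → ∀ (j a b : ℕ) (y v : V),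
  (∀ z z', 0 ≤ G4 W P η j a b z z') ∧ G4 W P η 0 a b y v = 1 ∧
  G4 W P η (j + 1) a b y v ≤ G4 W P η j (a + 1) (b + 1) y v
    + s2 * ∑ z, W.K (a + 1) y z ^ 2 * G4 W P η j 0 (b + 1) z v
    + s2 * ∑ z, W.K (b + 1) v z ^ 2 * G4 W P η j 0 (a + 1) z y
    + 2 * s2 * ∑ z, W.K (a + 1) y z * W.K (b + 1) v z *
        (G4 W P η j 0 (a + 1) z y + G4 W P η j 0 (b + 1) z v)
    + κ * s2 * ∑ z, W.K (a + 1) y z * W.K (b + 1) v z ^ 2 *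
        (G4 W P η j 0 0 z z + G4 W P η j 0 (a + 1) z y)
    + κ * s2 * ∑ z, W.K (a + 1) y z ^ 2 * W.K (b + 1) v z *
        (G4 W P η j 0 0 z z + G4 W P η j 0 (b + 1) z v)
    + κ * s2 * ∑ z, W.K (a + 1) y z ^ 2 * W.K (b + 1) v z ^ 2 * G4 W P η j 0 0 z z
    + s2 ^ 2 * ∑ z, ∑ z', W.K (a + 1) y z ^ 2 * W.K (b + 1) v z' ^ 2 * G4 W P η j 0 0 z z'
    + 2 * s2 ^ 2 * ∑ z, ∑ z', W.K (a + 1) y z * W.K (b + 1) v z *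
        (W.K (a + 1) y z' * W.K (b + 1) v z') * G4 W P η j 0 0 z z'

/-- T3: one step for `N4`. -/
def S_T3 : Prop := ∀ (V : Type) [Fintype V] [DecidableEq V] (C0 : ℝ) (N0 : ℕ) (W : Wlk V C0 N0)
  (Ω : Type) [MeasurableSpace Ω] (P : Measure Ω) [IsProbabilityMeasure P] (s2 κ : ℝ) (η : ℕ → V → Ω → ℝ),
  0 ≤ s2 → 0 ≤ κ → Noise P s2 κ η → ∀ (w : V → ℝ), (∀ x, 0 ≤ w x) → ∀ (T j a : ℕ) (y : V), j + 1 ≤ T →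
  (∀ z, 0 ≤ N4 W P η w T j a z) ∧ N4 W P η w T 0 a y = 0 ∧
  N4 W P η w T (j + 1) a y ≤ N4 W P η w T j (a + 1) y
    + s2 * ∑ z, W.K (a + 1) y z ^ 2 * N4 W P η w T j 0 z
    + s2 * ∑ z, wt W w (T - j) z ^ 2 * G4 W P η j 0 (a + 1) z y
    + 4 * s2 * ∑ z, wt W w (T - j) z * W.K (a + 1) y z *
        Real.sqrt (N4 W P η w T j 0 z * G4 W P η j 0 (a + 1) z y)
    + 2 * κ * s2 * ∑ z, wt W w (T - j) z * W.K (a + 1) y z ^ 2 *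
        Real.sqrt (N4 W P η w T j 0 z * G4 W P η j 0 0 z z)
    + κ * s2 * ∑ z, wt W w (T - j) z ^ 2 * W.K (a + 1) y z *
        (G4 W P η j 0 0 z z + G4 W P η j 0 (a + 1) z y)
    + κ * s2 * ∑ z, wt W w (T - j) z ^ 2 * W.K (a + 1) y z ^ 2 * G4 W P η j 0 0 z z
    + s2 ^ 2 * ∑ z, ∑ z', wt W w (T - j) z ^ 2 * W.K (a + 1) y z' ^ 2 * G4 W P η j 0 0 z z'
    + 2 * s2 ^ 2 * ∑ z, ∑ z', wt W w (T - j) z * W.K (a + 1) y z *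
        (wt W w (T - j) z' * W.K (a + 1) y z') * G4 W P η j 0 0 z z'

/-- M4: the fourth moment of the centred averaged partition function, raw form. -/
def S_M4 : Prop := ∀ (V : Type) [Fintype V] [DecidableEq V] (C0 : ℝ) (N0 : ℕ) (W : Wlk V C0 N0)
  (Ω : Type) [MeasurableSpace Ω] (P : Measure Ω) [IsProbabilityMeasure P] (s2 κ : ℝ) (η : ℕ → V → Ω → ℝ),
  0 ≤ s2 → 0 ≤ κ → Noise P s2 κ η → ∀ (w : V → ℝ), (∀ x, 0 ≤ w x) → ∀ T : ℕ,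
  ∫ ω, (XX W w T (cfg η ω) T) ^ 4 ∂P ≤ ∑ j ∈ Finset.range T,
    (6 * s2 * ∑ z, wt W w (T - j) z ^ 2 * N4 W P η w T j 0 z
      + 4 * κ * s2 * ∑ z, wt W w (T - j) z ^ 3 * Real.sqrt (N4 W P η w T j 0 z * G4 W P η j 0 0 z z)
      + 3 * s2 ^ 2 * ∑ z, ∑ z', wt W w (T - j) z ^ 2 * wt W w (T - j) z' ^ 2 * G4 W P η j 0 0 z z'
      + κ * s2 * ∑ z, wt W w (T - j) z ^ 4 * G4 W P η j 0 0 z z)

/-- M2: second moments (exact), mean and expected overlap after a block. -/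
def S_M2 : Prop := ∀ (V : Type) [Fintype V] [DecidableEq V] (C0 : ℝ) (N0 : ℕ) (W : Wlk V C0 N0)
  (Ω : Type) [MeasurableSpace Ω] (P : Measure Ω) [IsProbabilityMeasure P] (s2 κ : ℝ) (η : ℕ → V → Ω → ℝ),
  0 ≤ s2 → Noise P s2 κ η → ∀ (w : V → ℝ), (∀ x, 0 ≤ w x) → ∀ T : ℕ, T ≤ N0 →
  (∫ ω, XX W w T (cfg η ω) T ∂P = 0) ∧
  (∫ ω, (XX W w T (cfg η ω) T) ^ 2 ∂P = s2 * ∑ m ∈ Finset.Icc 1 T, ov W w m * UU s2 (T - m)) ∧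
  (∀ m : ℕ, m + T ≤ N0 → ∫ ω, ov W (fwd W (cfg η ω) T w) m ∂P =
    ov W w (m + T) + s2 * ∑ k ∈ Finset.Icc 1 T, ov W w k * DD s2 m (T - k))

/-- DUAL: duality and composition of blocks (pointwise identities), supports, monotonicity. -/
def S_DUAL : Prop := ∀ (V : Type) [Fintype V] [DecidableEq V] (C0 : ℝ) (N0 : ℕ) (W : Wlk V C0 N0)
  (x : ℕ → V → ℝ) (w : V → ℝ) (j T : ℕ),
  (∑ y, w y * Zr W x (j + T) y = ∑ z, fwd W (sft j x) T w z * Zr W x j z) ∧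
  (∑ y, w y * Zr W x T y = ∑ z, fwd W x T w z) ∧
  (XX W w T x T = (∑ z, w z * Zr W x T z) - ∑ z, w z) ∧
  ((∀ n v, -1 < x n v) → (∀ z, 0 ≤ w z) → ∀ z, 0 ≤ fwd W x T w z) ∧
  (∀ t : ℕ, (∀ z, w z ≠ 0 → W.cls t z) → ∀ z, fwd W x T w z ≠ 0 → W.cls (t + T) z) ∧
  (∀ (c : ℝ) z, fwd W x T (fun y => c * w y) z = c * fwd W x T w z)

/-! ## Bounds for the fourth order correlations -/

/-- TH: the supersolution in the ages. -/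
def S_TH : Prop := S_T1 → S_RR → S_HH → ∀ C0 κ : ℝ, 1 ≤ C0 → 0 ≤ κ → ∃ C : ℝ, 1 ≤ C ∧
  ∀ (V : Type) [Fintype V] [DecidableEq V] (N0 : ℕ) (W : Wlk V C0 N0)
  (Ω : Type) [MeasurableSpace Ω] (P : Measure Ω) [IsProbabilityMeasure P] (s2 E : ℝ) (η : ℕ → V → Ω → ℝ)
  (t T : ℕ), 0 < s2 → Noise P s2 κ η → 1 ≤ t → T ≤ N0 → s2 * RR T < 1 → E = 1 / (1 - s2 * RR T) →
  C * s2 * E * (1 + Real.log (1 + (T : ℝ) / t)) ≤ 1 →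
  ∀ (j a : ℕ) (y v : V), j + a ≤ T → G4 W P η j 0 a y v ≤ 2 * E * hh (1 / 4) t a

/-- PH: the mixed correlation. -/
def S_PH : Prop := S_T1 → S_T3 → S_RR → S_HH → S_OV → S_TH → ∀ C0 κ : ℝ, 1 ≤ C0 → 0 ≤ κ → ∃ C : ℝ, 1 ≤ C ∧
  ∀ (V : Type) [Fintype V] [DecidableEq V] (N0 : ℕ) (W : Wlk V C0 N0)
  (Ω : Type) [MeasurableSpace Ω] (P : Measure Ω) [IsProbabilityMeasure P] (s2 E : ℝ) (η : ℕ → V → Ω → ℝ)
  (w : V → ℝ) (t T : ℕ), 0 < s2 → Noise P s2 κ η → 1 ≤ t → T ≤ N0 → s2 * RR T < 1 →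
  E = 1 / (1 - s2 * RR T) → C * s2 * E * (1 + Real.log (1 + (T : ℝ) / t)) ≤ 1 →
  (∀ x, 0 ≤ w x) → ∑ x, w x = 1 →
  ∀ (j : ℕ) (y : V), j ≤ T → N4 W P η w T j 0 y ≤
    C * (s2 * E * (1 + Real.log (1 + (T : ℝ) / t))) * E * hh (1 / 4) t (T - j)

/-- F4: the fourth moment in terms of the overlaps. -/
def S_F4 : Prop := S_M4 → S_T1 → S_T3 → S_OV → S_HH →
  (∀ C0 κ : ℝ, 1 ≤ C0 → 0 ≤ κ → ∃ C : ℝ, 1 ≤ C ∧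
    ∀ (V : Type) [Fintype V] [DecidableEq V] (N0 : ℕ) (W : Wlk V C0 N0)
    (Ω : Type) [MeasurableSpace Ω] (P : Measure Ω) [IsProbabilityMeasure P] (s2 E : ℝ) (η : ℕ → V → Ω → ℝ)
    (w : V → ℝ) (t T : ℕ), 0 < s2 → Noise P s2 κ η → 1 ≤ t → T ≤ N0 → s2 * RR T < 1 →
    E = 1 / (1 - s2 * RR T) → C * s2 * E * (1 + Real.log (1 + (T : ℝ) / t)) ≤ 1 →
    (∀ x, 0 ≤ w x) → ∑ x, w x = 1 →
    (∀ (j a : ℕ) (y v : V), j + a ≤ T → G4 W P η j 0 a y v ≤ 2 * E * hh (1 / 4) t a) ∧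
    ∀ (j : ℕ) (y : V), j ≤ T → N4 W P η w T j 0 y ≤
      C * (s2 * E * (1 + Real.log (1 + (T : ℝ) / t))) * E * hh (1 / 4) t (T - j)) →
  ∀ C0 κ : ℝ, 1 ≤ C0 → 0 ≤ κ → ∃ C : ℝ, 1 ≤ C ∧
  ∀ (V : Type) [Fintype V] [DecidableEq V] (N0 : ℕ) (W : Wlk V C0 N0)
  (Ω : Type) [MeasurableSpace Ω] (P : Measure Ω) [IsProbabilityMeasure P] (s2 E : ℝ) (η : ℕ → V → Ω → ℝ)
  (w : V → ℝ) (t T : ℕ), 0 < s2 → Noise P s2 κ η → 1 ≤ t → T ≤ N0 → s2 * RR T < 1 →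
  E = 1 / (1 - s2 * RR T) → C * s2 * E * (1 + Real.log (1 + (T : ℝ) / t)) ≤ 1 →
  (∀ x, 0 ≤ w x) → ∑ x, w x = 1 →
  ∫ ω, (XX W w T (cfg η ω) T) ^ 4 ∂P ≤
    C * (s2 * E * (1 + Real.log (1 + (T : ℝ) / t)) * (s2 * E) *
        ∑ m ∈ Finset.Icc 1 T, ov W w m * hh (1 / 4) t m
      + s2 * E * ((t : ℝ) + 1) ^ (1 / 4 : ℝ) * ∑ m ∈ Finset.Icc 1 T, ov W w m / m)

/-! ## The block -/

/-- B2: the variance of a block, two-sided. -/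
def S_B2 : Prop := S_RR → S_UU → S_OV → S_GS → S_M2 → ∀ C0 κ : ℝ, 1 ≤ C0 → 0 ≤ κ → ∃ C : ℝ, 1 ≤ C ∧
  ∀ (V : Type) [Fintype V] [DecidableEq V] (N0 : ℕ) (W : Wlk V C0 N0)
  (Ω : Type) [MeasurableSpace Ω] (P : Measure Ω) [IsProbabilityMeasure P] (s2 : ℝ) (η : ℕ → V → Ω → ℝ)
  (w : V → ℝ) (t T : ℕ) (B L' : ℝ), 0 < s2 → Noise P s2 κ η → 1 ≤ t → 1 ≤ B → t + T ≤ N0 →
  L' = 1 / s2 - RR (t + T) → 1 ≤ L' → Good W t B w →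
  (∫ ω, (XX W w T (cfg η ω) T) ^ 2 ∂P ≤ (RR (t + T) - RR t + C * (1 + Real.log B)) / L') ∧
  (t ≤ T → RR (t + T) - RR t ≤ L' →
    (RR (t + T) - RR t - C * (1 + Real.log B)) / L' ≤ ∫ ω, (XX W w T (cfg η ω) T) ^ 2 ∂P)

/-- BC: after a block the normalised weight is good again with large probability. Also for the first block
(`t = 0`). -/
def S_BC : Prop := S_RR → S_OV → S_CLN → S_MEAS → S_M2 → S_DUAL → ∀ C0 κ : ℝ, 1 ≤ C0 → 0 ≤ κ → ∃ C : ℝ, 1 ≤ C ∧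
  ∀ (V : Type) [Fintype V] [DecidableEq V] (N0 : ℕ) (W : Wlk V C0 N0)
  (Ω : Type) [MeasurableSpace Ω] (P : Measure Ω) [IsProbabilityMeasure P] (s2 : ℝ) (η : ℕ → V → Ω → ℝ)
  (w : V → ℝ) (t T : ℕ) (L' B' : ℝ), 0 < s2 → Noise P s2 κ η → 1 ≤ T → t ≤ T → 4 * (t + T) ≤ N0 →
  L' = 1 / s2 - RR (t + T) → C ≤ L' → 1 ≤ B' →
  (∀ x, 0 ≤ w x) → ∑ x, w x = 1 → (∀ x, w x ≠ 0 → W.cls t x) → ∑ x, w x * W.d x ≤ (t + T : ℕ) →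
  ∑ m ∈ Finset.Icc 1 T, ov W w m ≤ L' →
  P.real {ω | ¬ Good W (t + T) B' (fun z => fwd W (cfg η ω) T w z / ∑ x, fwd W (cfg η ω) T w x)} ≤
    C / B' + P.real {ω | XX W w T (cfg η ω) T < -(1 / 2)}

/-- LV: one small centred random variable and its logarithm. -/
def S_LV : Prop := ∃ C : ℝ, 1 ≤ C ∧ ∀ (Ω : Type) [MeasurableSpace Ω] (P : Measure Ω) [IsProbabilityMeasure P]
  (X : Ω → ℝ) (d e f : ℝ), Measurable X → (∀ ω, -1 < X ω) → Integrable (fun ω => X ω ^ 4) P →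
  ∫ ω, X ω ∂P = 0 → 0 ≤ d → d ≤ 1 → 0 ≤ e → e ≤ 1 → 0 ≤ f → f ≤ 1 → |∫ ω, X ω ^ 2 ∂P - d| ≤ e →
  ∫ ω, X ω ^ 4 ∂P ≤ f → ∀ u : ℝ,
  ‖(∫ ω, Complex.exp (Complex.I * (u * (Real.log (1 + X ω) + 1 / 2 * d) : ℝ)) ∂P) -
      Complex.exp ((-(u ^ 2 / 2 * d) : ℝ))‖ ≤
    C * (1 + u ^ 4) * (e + f + Real.sqrt ((d + e) * f) + d ^ 2)

/-- CHN: the Markov property of the chain of blocks. -/
def S_CHN : Prop := S_MEAS → S_IND → S_FRZ → S_DUAL →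
  ∀ (V : Type) [Fintype V] [DecidableEq V] (C0 : ℝ) (N0 : ℕ) (W : Wlk V C0 N0)
  (Ω : Type) [MeasurableSpace Ω] (P : Measure Ω) [IsProbabilityMeasure P] (s2 κ : ℝ) (η : ℕ → V → Ω → ℝ)
  (w : V → ℝ) (j T : ℕ) (u c1 c2 e b : ℝ) (ρ : ℂ) (S : Set (V → ℝ)), Noise P s2 κ η →
  (∀ x, 0 ≤ w x) → ∑ x, w x = 1 → MeasurableSet S → ‖ρ‖ ≤ 1 → 0 ≤ e →
  (∀ w' ∈ S, ‖chi W P η u c2 j w' - ρ‖ ≤ e) →
  P.real {ω | (fun z => fwd W (sft j (cfg η ω)) T w z / ∑ x, fwd W (sft j (cfg η ω)) T w x) ∉ S} ≤ b →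
  ‖chi W P η u (c1 + c2) (j + T) w -
      (∫ ω, Complex.exp (Complex.I * (u * (Real.log (1 + XX W w T (sft j (cfg η ω)) T) + c1) : ℝ)) ∂P) * ρ‖
    ≤ e + 2 * b

/-- GM: the set of good weights is measurable. -/
def S_GM : Prop := ∀ (V : Type) [Fintype V] [DecidableEq V] (C0 : ℝ) (N0 : ℕ) (W : Wlk V C0 N0) (t : ℕ) (B : ℝ),
  MeasurableSet {w : V → ℝ | Good W t B w}

/-! ## Torus, law of the environment, link with the polymer -/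

/-- TOR: the torus. Coordinates `φ (x,y) = (x+y, x-y)`. -/
def S_TOR : Prop := ∃ C0 : ℝ, 1 ≤ C0 ∧ ∀ N0 : ℕ, ∃ (V : Type) (_ : Fintype V) (_ : DecidableEq V)
  (W : Wlk V C0 N0) (φ : ℤ × ℤ → V) (lft : V → ℤ × ℤ), Function.Injective lft ∧
  (∀ z : ℤ × ℤ, |z.1| + |z.2| ≤ N0 → lft (φ z) = z) ∧
  (∀ z v, W.K 1 (φ z) v = 1 / 4 * ∑ e : Fin 4, if φ (z + stp e) = v then (1 : ℝ) else 0) ∧
  W.cls 0 (φ 0) ∧ W.d (φ 0) = 0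

/-- LAW: the tilted environment. -/
def S_LAW : Prop := ∀ (μ : Measure ℝ) [IsProbabilityMeasure μ],
  (∀ b : ℝ, 0 ≤ b → Integrable (fun x : ℝ => Real.exp (b * x)) μ) → ∫ x, x ∂μ = 0 → ∫ x, x ^ 2 ∂μ = 1 →
  ∃ κ b0 c0 : ℝ, 1 ≤ κ ∧ 0 < b0 ∧ 0 < c0 ∧ (∀ b, b0 ≤ b → c0 ≤ sig2 μ b) ∧
    ∀ b, 0 ≤ b → b ≤ b0 →
    Integrable (fun x => (Real.exp (b * x - Lam μ b) - 1) ^ 4) μ ∧
    ∫ x, (Real.exp (b * x - Lam μ b) - 1) ∂μ = 0 ∧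
    ∫ x, (Real.exp (b * x - Lam μ b) - 1) ^ 2 ∂μ = sig2 μ b ∧
    |∫ x, (Real.exp (b * x - Lam μ b) - 1) ^ 3 ∂μ| ≤ κ * sig2 μ b ∧
    ∫ x, (Real.exp (b * x - Lam μ b) - 1) ^ 4 ∂μ ≤ κ * sig2 μ b

/-- LINK: the partition function of the polymer as a field on the torus. -/
def S_LINK : Prop := ∀ (C0 : ℝ) (N N0 : ℕ) (V : Type) [Fintype V] [DecidableEq V]
  (W : Wlk V C0 N0) (φ : ℤ × ℤ → V) (lft : V → ℤ × ℤ), N ≤ N0 →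
  (∀ z : ℤ × ℤ, |z.1| + |z.2| ≤ N0 → lft (φ z) = z) →
  (∀ z v, W.K 1 (φ z) v = 1 / 4 * ∑ e : Fin 4, if φ (z + stp e) = v then (1 : ℝ) else 0) →
  ∀ (lam b : ℝ) (ω : ℕ × (ℤ × ℤ) → ℝ),
  Zr W (fun j v => Real.exp (b * ω (if j ≤ N then N + 1 - j else j + 1, lft v) - lam) - 1) N (φ 0) =
    PF lam b N ω

end Pool.Agent.H964.QC
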