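import Pool.Agent.H964.QC.Stm

/-! # Project QC (helper964): statements of the tasks, part 2 -/

set_option autoImplicit false

open MeasureTheory ProbabilityTheory Filter Finset

namespace Pool.Agent.H964.QC

/-- transition probabilities of the simple random walk on the cycle of length `M` -/
noncomputable def q1 (M : ℕ) : ℕ → ZMod M → ℝ
  | 0, k => if k = 0 then 1 else 0
  | (n + 1), k => (q1 M n (k - 1) + q1 M n (k + 1)) / 2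

/-- TORA: the walk on a long cycle. -/
def S_TORA : Prop := ∃ C : ℝ, 1 ≤ C ∧ ∀ (N0 M : ℕ) [NeZero M], M = 4 * N0 + 4 →
  (∀ n k, 0 ≤ q1 M n k) ∧ (∀ n k, q1 M n (-k) = q1 M n k) ∧
  (∀ m n z, q1 M (m + n) z = ∑ y, q1 M m y * q1 M n (z - y)) ∧ (∀ n, ∑ y, q1 M n y = 1) ∧
  (∀ n, n ≤ N0 → q1 M (2 * n) 0 ^ 2 = rr n) ∧
  (∀ n k, 1 ≤ n → n ≤ N0 → q1 M n k ≤ C / Real.sqrt n) ∧
  (∀ (n : ℕ) (i : ℤ), 1 ≤ n → n ≤ N0 →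
    q1 M (2 * n) 0 * (1 - (i : ℝ) ^ 2 / n) ≤ q1 M (2 * n) ((2 * i : ℤ) : ZMod M)) ∧
  (∀ (n : ℕ) (x : ZMod M), ∑ y, q1 M n y * ((x + y).valMinAbs : ℝ) ^ 2 ≤ (x.valMinAbs : ℝ) ^ 2 + n)

/-- TORB: assembly of the torus. -/
def S_TORB : Prop := S_TORA → S_TOR

/-- BLK: the block theorem. -/
def S_BLK : Prop := S_RR → S_HH → S_OV → S_GS → S_B2 → S_BC → S_F4 → S_M2 → S_MEAS → S_DUAL →
  S_UU → S_CLN → S_M4 → S_T1 → S_T3 → S_TH → S_PH →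
  ∀ C0 κ : ℝ, 1 ≤ C0 → 0 ≤ κ → ∃ C L0 : ℝ, 1 ≤ C ∧ 1 ≤ L0 ∧
  ∀ (V : Type) [Fintype V] [DecidableEq V] (N0 : ℕ) (W : Wlk V C0 N0)
  (Ω : Type) [MeasurableSpace Ω] (P : Measure Ω) [IsProbabilityMeasure P] (s2 : ℝ) (η : ℕ → V → Ω → ℝ)
  (w : V → ℝ) (t T : ℕ) (L L' : ℝ), 0 < s2 → Noise P s2 κ η → L = 1 / s2 - RR t →
  L' = 1 / s2 - RR (t + T) → L0 ≤ L' → Real.sqrt L ≤ RR (t + T) - RR t →
  RR (t + T) - RR t ≤ Real.sqrt L + 1 → 1 / s2 ^ 4 ≤ t → 4 * (t + T) ≤ N0 → Good W t L w →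
  |∫ ω, (XX W w T (cfg η ω) T) ^ 2 ∂P - Real.log (L / L')| ≤ C * (1 + Real.log L) / L ∧
  ∫ ω, (XX W w T (cfg η ω) T) ^ 4 ∂P ≤ C / L ∧
  P.real {ω | ¬ Good W (t + T) L' (fun z => fwd W (cfg η ω) T w z / ∑ x, fwd W (cfg η ω) T w x)} ≤ C / L

/-- STEP: one step of the backward induction over the blocks. -/
def S_STEP : Prop := S_MEAS → S_IND → S_DUAL → S_CHN → S_GM → S_LV → S_RR → S_M2 →
  (∀ C0 κ : ℝ, 1 ≤ C0 → 0 ≤ κ → ∃ C L0 : ℝ, 1 ≤ C ∧ 1 ≤ L0 ∧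
    ∀ (V : Type) [Fintype V] [DecidableEq V] (N0 : ℕ) (W : Wlk V C0 N0)
    (Ω : Type) [MeasurableSpace Ω] (P : Measure Ω) [IsProbabilityMeasure P] (s2 : ℝ) (η : ℕ → V → Ω → ℝ)
    (w : V → ℝ) (t T : ℕ) (L L' : ℝ), 0 < s2 → Noise P s2 κ η → L = 1 / s2 - RR t →
    L' = 1 / s2 - RR (t + T) → L0 ≤ L' → Real.sqrt L ≤ RR (t + T) - RR t →
    RR (t + T) - RR t ≤ Real.sqrt L + 1 → 1 / s2 ^ 4 ≤ t → 4 * (t + T) ≤ N0 → Good W t L w →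
    |∫ ω, (XX W w T (cfg η ω) T) ^ 2 ∂P - Real.log (L / L')| ≤ C * (1 + Real.log L) / L ∧
    ∫ ω, (XX W w T (cfg η ω) T) ^ 4 ∂P ≤ C / L ∧
    P.real {ω | ¬ Good W (t + T) L' (fun z => fwd W (cfg η ω) T w z / ∑ x, fwd W (cfg η ω) T w x)} ≤ C / L) →
  ∀ C0 κ : ℝ, 1 ≤ C0 → 0 ≤ κ → ∃ C L0 : ℝ, 1 ≤ C ∧ 1 ≤ L0 ∧
  ∀ (V : Type) [Fintype V] [DecidableEq V] (N0 : ℕ) (W : Wlk V C0 N0)
  (Ω : Type) [MeasurableSpace Ω] (P : Measure Ω) [IsProbabilityMeasure P] (s2 : ℝ) (η : ℕ → V → Ω → ℝ)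
  (w : V → ℝ) (t T j : ℕ) (L L' Ls u e : ℝ), 0 < s2 → Noise P s2 κ η → L = 1 / s2 - RR t →
  L' = 1 / s2 - RR (t + T) → L0 ≤ Ls → Ls ≤ L' → Real.sqrt L ≤ RR (t + T) - RR t →
  RR (t + T) - RR t ≤ Real.sqrt L + 1 → 1 / s2 ^ 4 ≤ t → 4 * (t + T) ≤ N0 → Good W t L w → 0 ≤ e →
  (∀ w', Good W (t + T) L' w' → ‖chi W P η u (1 / 2 * Real.log (L' / Ls)) j w' -
    Complex.exp ((-(u ^ 2 / 2 * Real.log (L' / Ls)) : ℝ))‖ ≤ e) →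
  ‖chi W P η u (1 / 2 * Real.log (L / Ls)) (j + T) w -
    Complex.exp ((-(u ^ 2 / 2 * Real.log (L / Ls)) : ℝ))‖ ≤ e + C * (1 + u ^ 4) * L ^ (-(3 / 4) : ℝ)

/-- BASE: the last incomplete block. -/
def S_BASE : Prop := S_MEAS → S_DUAL → S_RR → S_M2 → S_B2 → S_UU → S_OV → S_GS →
  ∀ C0 κ : ℝ, 1 ≤ C0 → 0 ≤ κ → ∃ C L0 : ℝ, 1 ≤ C ∧ 1 ≤ L0 ∧
  ∀ (V : Type) [Fintype V] [DecidableEq V] (N0 : ℕ) (W : Wlk V C0 N0)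
  (Ω : Type) [MeasurableSpace Ω] (P : Measure Ω) [IsProbabilityMeasure P] (s2 : ℝ) (η : ℕ → V → Ω → ℝ)
  (w : V → ℝ) (t j : ℕ) (L Ls u : ℝ), 0 < s2 → Noise P s2 κ η → L = 1 / s2 - RR t →
  Ls = 1 / s2 - RR (t + j) → L0 ≤ Ls → RR (t + j) - RR t ≤ Real.sqrt L → 1 ≤ t → 4 * (t + j) ≤ N0 →
  Good W t L w →
  ‖chi W P η u (1 / 2 * Real.log (L / Ls)) j w -
    Complex.exp ((-(u ^ 2 / 2 * Real.log (L / Ls)) : ℝ))‖ ≤ C * (1 + u ^ 4) * Ls ^ (-(1 / 4) : ℝ)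

/-- INIT: the first block. -/
def S_INIT : Prop := S_MEAS → S_IND → S_DUAL → S_CHN → S_GM → S_RR → S_M2 → S_BC → S_UU → S_OV → S_CLN →
  ∀ C0 κ : ℝ, 1 ≤ C0 → 0 ≤ κ → ∃ C L0 : ℝ, 1 ≤ C ∧ 1 ≤ L0 ∧
  ∀ (V : Type) [Fintype V] [DecidableEq V] (N0 : ℕ) (W : Wlk V C0 N0)
  (Ω : Type) [MeasurableSpace Ω] (P : Measure Ω) [IsProbabilityMeasure P] (s2 : ℝ) (η : ℕ → V → Ω → ℝ)
  (x0 : V) (T j : ℕ) (L' Ls u e : ℝ), 0 < s2 → Noise P s2 κ η → W.cls 0 x0 → W.d x0 = 0 →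
  L' = 1 / s2 - RR T → L0 ≤ Ls → Ls ≤ L' → Real.sqrt (1 / s2) ≤ RR T →
  RR T ≤ Real.sqrt (1 / s2) + 1 → 4 * T ≤ N0 → 0 ≤ e →
  (∀ w', Good W T L' w' → ‖chi W P η u (1 / 2 * Real.log (L' / Ls)) j w' -
    Complex.exp ((-(u ^ 2 / 2 * Real.log (L' / Ls)) : ℝ))‖ ≤ e) →
  ‖chi W P η u (1 / 2 * Real.log (1 / s2 / Ls)) (j + T) (fun x => if x = x0 then 1 else 0) -
    Complex.exp ((-(u ^ 2 / 2 * Real.log (1 / s2 / Ls)) : ℝ))‖ ≤ e + C * (1 + u ^ 4) * Ls ^ (-(1 / 4) : ℝ)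

/-- MQ: the quantitative theorem. -/
def S_MQ : Prop := ∀ C0 κ : ℝ, 1 ≤ C0 → 0 ≤ κ → ∃ C L0 : ℝ, 1 ≤ C ∧ 1 ≤ L0 ∧
  ∀ (V : Type) [Fintype V] [DecidableEq V] (N0 : ℕ) (W : Wlk V C0 N0)
  (Ω : Type) [MeasurableSpace Ω] (P : Measure Ω) [IsProbabilityMeasure P] (s2 : ℝ) (η : ℕ → V → Ω → ℝ)
  (x0 : V) (N : ℕ) (Ls u : ℝ), 0 < s2 → L0 ≤ 1 / s2 → Noise P s2 κ η → W.cls 0 x0 → W.d x0 = 0 →
  Ls = 1 / s2 - RR N → L0 ≤ Ls → Ls ≤ 1 / 2 * (1 / s2) → 4 * N ≤ N0 →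
  ‖chi W P η u (1 / 2 * Real.log (1 / s2 / Ls)) N (fun x => if x = x0 then 1 else 0) -
    Complex.exp ((-(u ^ 2 / 2 * Real.log (1 / s2 / Ls)) : ℝ))‖ ≤ C * (1 + u ^ 4) * Ls ^ (-(1 / 4) : ℝ)

/-- CHAIN: the backward induction over the blocks gives the quantitative theorem. -/
def S_CHAIN : Prop := S_RR →
  (∀ C0 κ : ℝ, 1 ≤ C0 → 0 ≤ κ → ∃ C L0 : ℝ, 1 ≤ C ∧ 1 ≤ L0 ∧
  ∀ (V : Type) [Fintype V] [DecidableEq V] (N0 : ℕ) (W : Wlk V C0 N0)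
  (Ω : Type) [MeasurableSpace Ω] (P : Measure Ω) [IsProbabilityMeasure P] (s2 : ℝ) (η : ℕ → V → Ω → ℝ)
  (w : V → ℝ) (t T j : ℕ) (L L' Ls u e : ℝ), 0 < s2 → Noise P s2 κ η → L = 1 / s2 - RR t →
  L' = 1 / s2 - RR (t + T) → L0 ≤ Ls → Ls ≤ L' → Real.sqrt L ≤ RR (t + T) - RR t →
  RR (t + T) - RR t ≤ Real.sqrt L + 1 → 1 / s2 ^ 4 ≤ t → 4 * (t + T) ≤ N0 → Good W t L w → 0 ≤ e →
  (∀ w', Good W (t + T) L' w' → ‖chi W P η u (1 / 2 * Real.log (L' / Ls)) j w' -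
    Complex.exp ((-(u ^ 2 / 2 * Real.log (L' / Ls)) : ℝ))‖ ≤ e) →
  ‖chi W P η u (1 / 2 * Real.log (L / Ls)) (j + T) w -
    Complex.exp ((-(u ^ 2 / 2 * Real.log (L / Ls)) : ℝ))‖ ≤ e + C * (1 + u ^ 4) * L ^ (-(3 / 4) : ℝ)) →
  (∀ C0 κ : ℝ, 1 ≤ C0 → 0 ≤ κ → ∃ C L0 : ℝ, 1 ≤ C ∧ 1 ≤ L0 ∧
  ∀ (V : Type) [Fintype V] [DecidableEq V] (N0 : ℕ) (W : Wlk V C0 N0)
  (Ω : Type) [MeasurableSpace Ω] (P : Measure Ω) [IsProbabilityMeasure P] (s2 : ℝ) (η : ℕ → V → Ω → ℝ)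
  (w : V → ℝ) (t j : ℕ) (L Ls u : ℝ), 0 < s2 → Noise P s2 κ η → L = 1 / s2 - RR t →
  Ls = 1 / s2 - RR (t + j) → L0 ≤ Ls → RR (t + j) - RR t ≤ Real.sqrt L → 1 ≤ t → 4 * (t + j) ≤ N0 →
  Good W t L w →
  ‖chi W P η u (1 / 2 * Real.log (L / Ls)) j w -
    Complex.exp ((-(u ^ 2 / 2 * Real.log (L / Ls)) : ℝ))‖ ≤ C * (1 + u ^ 4) * Ls ^ (-(1 / 4) : ℝ)) →
  (∀ C0 κ : ℝ, 1 ≤ C0 → 0 ≤ κ → ∃ C L0 : ℝ, 1 ≤ C ∧ 1 ≤ L0 ∧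
  ∀ (V : Type) [Fintype V] [DecidableEq V] (N0 : ℕ) (W : Wlk V C0 N0)
  (Ω : Type) [MeasurableSpace Ω] (P : Measure Ω) [IsProbabilityMeasure P] (s2 : ℝ) (η : ℕ → V → Ω → ℝ)
  (x0 : V) (T j : ℕ) (L' Ls u e : ℝ), 0 < s2 → Noise P s2 κ η → W.cls 0 x0 → W.d x0 = 0 →
  L' = 1 / s2 - RR T → L0 ≤ Ls → Ls ≤ L' → Real.sqrt (1 / s2) ≤ RR T →
  RR T ≤ Real.sqrt (1 / s2) + 1 → 4 * T ≤ N0 → 0 ≤ e →
  (∀ w', Good W T L' w' → ‖chi W P η u (1 / 2 * Real.log (L' / Ls)) j w' -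
    Complex.exp ((-(u ^ 2 / 2 * Real.log (L' / Ls)) : ℝ))‖ ≤ e) →
  ‖chi W P η u (1 / 2 * Real.log (1 / s2 / Ls)) (j + T) (fun x => if x = x0 then 1 else 0) -
    Complex.exp ((-(u ^ 2 / 2 * Real.log (1 / s2 / Ls)) : ℝ))‖ ≤ e + C * (1 + u ^ 4) * Ls ^ (-(1 / 4) : ℝ)) →
  S_MQ

/-- FIN: the final theorem (convergence in distribution). -/
def S_FIN : Prop := S_MQ → S_TOR → S_LAW → S_LINK → S_RR → S_MEAS →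
  ∀ (μ : Measure ℝ) [IsProbabilityMeasure μ],
  (∀ b : ℝ, 0 ≤ b → Integrable (fun x : ℝ => Real.exp (b * x)) μ) → ∫ x, x ∂μ = 0 → ∫ x, x ^ 2 ∂μ = 1 →
  ∀ (Ω : Type) [MeasurableSpace Ω] (P : Measure Ω) [IsProbabilityMeasure P] (om : ℕ × (ℤ × ℤ) → Ω → ℝ),
  (∀ p, Measurable (om p)) → iIndepFun om P → (∀ p, P.map (om p) = μ) →
  ∀ (β : ℕ → ℝ), (∀ n, 0 ≤ β n) →
  Tendsto (fun n : ℕ => Real.log n * (1 - RR n * sig2 μ (β n))) atTop atTop →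
  Tendsto (fun n : ℕ => 1 - RR n * sig2 μ (β n)) atTop (nhds 0) →
  TendstoInDistribution (fun (n : ℕ) (x : Ω) =>
      (Real.log (PF (Lam μ (β n)) (β n) n (fun p => om p x))
        - 1 / 2 * Real.log (1 - RR n * sig2 μ (β n))) /
        Real.sqrt (-Real.log (1 - RR n * sig2 μ (β n))))
    atTop (fun x : ℝ => x) (fun _ => P) (gaussianReal 0 1)

end Pool.Agent.H964.QC
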