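import Mathlib

/-! # Project QC (helper964): the planar directed polymer in the quasi-critical regime

Definitions. Noise layers are indexed by the REMAINING time: the field `Zr W η j` uses the layers
`1, ..., j`, and layer `j` is applied first when `j` steps remain. The walk lives on a finite set `V`
(a large discrete torus), see `Wlk`. -/

set_option autoImplicit false

open MeasureTheory ProbabilityTheory Filter Finset

namespace Pool.Agent.H964.QC

/-- return probability at time `2n` of the simple random walk on the plane lattice -/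
noncomputable def rr (n : ℕ) : ℝ := ((Nat.centralBinom n : ℝ) / 4 ^ n) ^ 2

/-- expected overlap up to time `n` -/
noncomputable def RR (n : ℕ) : ℝ := ∑ i ∈ Finset.Icc 1 n, rr i

/-- A symmetric random walk on a finite set that looks like the planar walk up to time `N0`:
`K n x y` are the `n`-step transition probabilities, `d` a squared distance to a base point,
`cls t` the set of sites that can be reached at time `t` (parity). -/
structure Wlk (V : Type) [Fintype V] [DecidableEq V] (C0 : ℝ) (N0 : ℕ) where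
  K : ℕ → V → V → ℝ
  d : V → ℝ
  cls : ℕ → V → Prop
  one_le : 1 ≤ C0
  d_nonneg : ∀ x, 0 ≤ d x
  K_nonneg : ∀ n x y, 0 ≤ K n x y
  K_symm : ∀ n x y, K n x y = K n y x
  K_zero : ∀ x y, K 0 x y = if x = y then 1 else 0
  K_add : ∀ m n x z, K (m + n) x z = ∑ y, K m x y * K n y z
  K_sum : ∀ n x, ∑ y, K n x y = 1
  K_ret : ∀ n x, n ≤ N0 → K (2 * n) x x = rr n
  K_sup : ∀ n x y, 1 ≤ n → n ≤ N0 → K n x y ≤ C0 / n
  K_low : ∀ n t x y, 1 ≤ n → n ≤ N0 → cls t x → cls t y →
    rr n - C0 * (d x + d y) / (n : ℝ) ^ 2 ≤ K (2 * n) x y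
  K_d : ∀ n x, n ≤ N0 → ∑ y, K n x y * d y ≤ d x + C0 * n
  K_cls : ∀ n t x y, cls t x → K n x y ≠ 0 → cls (t + n) y

variable {V : Type} [Fintype V] [DecidableEq V] {C0 : ℝ} {N0 : ℕ}

/-- free evolution of a function -/
noncomputable def sm (W : Wlk V C0 N0) (a : ℕ) (f : V → ℝ) (y : V) : ℝ := ∑ z, W.K a y z * f z

/-- free evolution of a weight -/
noncomputable def wt (W : Wlk V C0 N0) (w : V → ℝ) (m : ℕ) (z : V) : ℝ := ∑ x, w x * W.K m x z

/-- overlap after `m` free steps -/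
noncomputable def ov (W : Wlk V C0 N0) (w : V → ℝ) (m : ℕ) : ℝ := ∑ z, (wt W w m z) ^ 2

/-- partition functions with `j` remaining steps: `Zr 0 = 1`,
`Zr (j+1) y = Σ_z K 1 y z (1 + η_{j+1}(z)) Zr j z` -/
noncomputable def Zr (W : Wlk V C0 N0) (η : ℕ → V → ℝ) : ℕ → V → ℝ
  | 0, _ => 1
  | (j + 1), y => ∑ z, W.K 1 y z * ((1 + η (j + 1) z) * Zr W η j z)

/-- forward weights: the weight `w` is transported through the layers `T, T-1, ..., 1` -/
noncomputable def fwd (W : Wlk V C0 N0) (η : ℕ → V → ℝ) : ℕ → (V → ℝ) → V → ℝ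
  | 0, w => w
  | (T + 1), w => fwd W η T (fun z => (1 + η (T + 1) z) * wt W w 1 z)

/-- the noise: independent, centred, variance `s2`, third and fourth moments at most `κ s2` -/
structure Noise {Ω : Type} [MeasurableSpace Ω] (P : Measure Ω) (s2 κ : ℝ) (η : ℕ → V → Ω → ℝ) :
    Prop where
  meas : ∀ n v, Measurable (η n v)
  indep : iIndepFun (fun i : ℕ × V => η i.1 i.2) P
  gt : ∀ n v ω, -1 < η n v ω
  int4 : ∀ n v, Integrable (fun ω => (η n v ω) ^ 4) P
  m1 : ∀ n v, ∫ ω, η n v ω ∂P = 0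
  m2 : ∀ n v, ∫ ω, (η n v ω) ^ 2 ∂P = s2
  m3 : ∀ n v, |∫ ω, (η n v ω) ^ 3 ∂P| ≤ κ * s2
  m4 : ∀ n v, ∫ ω, (η n v ω) ^ 4 ∂P ≤ κ * s2

/-- the configuration of the noise at `ω` -/
def cfg {Ω : Type} (η : ℕ → V → Ω → ℝ) (ω : Ω) : ℕ → V → ℝ := fun n v => η n v ω

/-- the layers up to `j` (the others replaced by zero) -/
def cut (j : ℕ) (x : ℕ → V → ℝ) : ℕ → V → ℝ := fun n v => if n ≤ j then x n v else 0

/-- the layers after `j`, renumbered: the new layer `i` is the old layer `j + i` -/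
def sft (j : ℕ) (x : ℕ → V → ℝ) : ℕ → V → ℝ := fun n v => x (j + n) v

/-- fourth order correlation -/
noncomputable def G4 (W : Wlk V C0 N0) {Ω : Type} [MeasurableSpace Ω] (P : Measure Ω)
    (η : ℕ → V → Ω → ℝ) (j a b : ℕ) (y v : V) : ℝ :=
  ∫ ω, (sm W a (Zr W (cfg η ω) j) y) ^ 2 * (sm W b (Zr W (cfg η ω) j) v) ^ 2 ∂P

/-- centred averaged partition function: the weight `w` evolved freely for `T - j` steps, then the
centred field with `j` remaining steps -/
noncomputable def XX (W : Wlk V C0 N0) (w : V → ℝ) (T : ℕ) (x : ℕ → V → ℝ) (j : ℕ) : ℝ :=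
  ∑ z, wt W w (T - j) z * (Zr W x j z - 1)

/-- mixed fourth order correlation -/
noncomputable def N4 (W : Wlk V C0 N0) {Ω : Type} [MeasurableSpace Ω] (P : Measure Ω)
    (η : ℕ → V → Ω → ℝ) (w : V → ℝ) (T j a : ℕ) (y : V) : ℝ :=
  ∫ ω, (XX W w T (cfg η ω) j) ^ 2 * (sm W a (Zr W (cfg η ω) j) y) ^ 2 ∂P

/-- a weight that is spread out at scale `t`, with constant `B` -/
structure Good (W : Wlk V C0 N0) (t : ℕ) (B : ℝ) (w : V → ℝ) : Prop where
  nonneg : ∀ x, 0 ≤ w x
  sum : ∑ x, w x = 1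
  cls : ∀ x, w x ≠ 0 → W.cls t x
  ov : ∀ n : ℕ, 1 ≤ n → n ≤ t → ov W w n ≤ B / Real.sqrt ((n : ℝ) * t)
  spread : ∑ x, w x * W.d x ≤ B * t

/-- second moment of the partition function (renewal sequence) -/
noncomputable def UU (s : ℝ) (n : ℕ) : ℝ := 1 + s * ∑ i : Fin n, rr (n - i) * UU s i
termination_by n
decreasing_by exact i.2

/-- correlation of two paths from the same point, with a final free evolution of `m` steps -/
noncomputable def DD (s : ℝ) (m : ℕ) (n : ℕ) : ℝ :=
  rr (m + n) + s * ∑ i : Fin n, rr (n - i) * DD s m i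
termination_by n
decreasing_by exact i.2

/-- the weight function of the ages -/
noncomputable def hh (g : ℝ) (t a : ℕ) : ℝ := max 1 ((((t : ℝ) + 1) / ((a : ℝ) + 1)) ^ g)

/-- characteristic function of the logarithm of the averaged partition function -/
noncomputable def chi (W : Wlk V C0 N0) {Ω : Type} [MeasurableSpace Ω] (P : Measure Ω)
    (η : ℕ → V → Ω → ℝ) (u c : ℝ) (j : ℕ) (w : V → ℝ) : ℂ :=
  ∫ ω, Complex.exp (Complex.I * (u * (Real.log (∑ x, w x * Zr W (cfg η ω) j x) + c) : ℝ)) ∂P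

/-- steps of the simple random walk -/
def stp : Fin 4 → ℤ × ℤ := ![(1, 0), (-1, 0), (0, 1), (0, -1)]

/-- position after `k` steps -/
def pos {n : ℕ} (s : Fin n → Fin 4) (k : ℕ) : ℤ × ℤ :=
  ∑ i ∈ Finset.univ.filter (fun i : Fin n => (i : ℕ) < k), stp (s i)

/-- the partition function of the planar directed polymer, point to plane -/
noncomputable def PF (lam b : ℝ) (n : ℕ) (ω : ℕ × (ℤ × ℤ) → ℝ) : ℝ :=
  (1 / 4 ^ n) * ∑ s : Fin n → Fin 4,
    Real.exp (∑ k : Fin n, (b * ω ((k : ℕ) + 1, pos s ((k : ℕ) + 1)) - lam))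

/-- logarithmic moment generating function of the law of the environment -/
noncomputable def Lam (μ : Measure ℝ) (b : ℝ) : ℝ := Real.log (∫ x, Real.exp (b * x) ∂μ)

/-- the variance parameter -/
noncomputable def sig2 (μ : Measure ℝ) (b : ℝ) : ℝ := Real.exp (Lam μ (2 * b) - 2 * Lam μ b) - 1

end Pool.Agent.H964.QC
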