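import Pool.Agent.H964.QC.Stm2
import Pool.Agent.H230.QC.RR
import Pool.Agent.H296.QC.UU
import Pool.Agent.H71.QC.DD
import Pool.Agent.H71.QC.HH
import Pool.Agent.H784.QC.OV
import Pool.Agent.H349.QC.GS
import Pool.Agent.H230.QC.IND
import Pool.Agent.H199.QC.MEAS
import Pool.Agent.H686.QC.FRZ
import Pool.Agent.H972.QC.ALG
import Pool.Agent.H696.QC.T1
import Pool.Agent.H696.QC.T3
import Pool.Agent.H100.QC.M4
import Pool.Agent.H200.QC.M2
import Pool.Agent.H686.QC.DUAL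
import Pool.Agent.H344.QC.TH
import Pool.Agent.H344.QC.PH
import Pool.Agent.H665.QC.F4
import Pool.Agent.H187.QC.B2
import Pool.Agent.H353.QC.BC
import Pool.Agent.H550.QC.LV
import Pool.Agent.H922.QC.CHN
import Pool.Agent.H686.QC.GM
import Pool.Agent.H277.QC.LAW
import Pool.Agent.H722.QC.LINK
import Pool.Agent.H81.QC.TORA
import Pool.Agent.H404.QC.TORB
import Pool.Agent.H339.QC.BLK
import Pool.Agent.H236.QC.STEP
import Pool.Agent.H980.QC.BASE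
import Pool.Agent.H264.QC.INIT
import Pool.Agent.H236.QC.CHAIN

/-! # Project QC (helper964): assembly of the quantitative theorem -/

set_option autoImplicit false

open MeasureTheory ProbabilityTheory Filter Finset

namespace Pool.Agent.H964.QC

theorem a_RR : S_RR := Pool.Agent.H230.QC.t_RR
theorem a_UU : S_UU := Pool.Agent.H296.QC.t_UU a_RR
theorem a_DD : S_DD := Pool.Agent.H71.QC.t_DD a_RR a_UU
theorem a_CLN : S_CLN := Pool.Agent.H71.QC.t_CLN a_RR a_UU a_DD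
theorem a_HH : S_HH := Pool.Agent.H71.QC.HH.t_HH
theorem a_OV : S_OV := Pool.Agent.H784.QC.t_OV
theorem a_GS : S_GS := Pool.Agent.H349.QC.t_GS a_RR a_OV
theorem a_IND : S_IND := Pool.Agent.H230.QC.t_IND
theorem a_MEAS : S_MEAS := Pool.Agent.H199.QC.t_MEAS a_IND
theorem a_FRZ : S_FRZ := Pool.Agent.H686.QC.t_FRZ
theorem a_ALG : S_ALG := Pool.Agent.H972.QC.t_ALG
theorem a_T1 : S_T1 := Pool.Agent.H696.QC.t_T1 a_MEAS a_IND a_FRZ a_ALG
theorem a_T3 : S_T3 := Pool.Agent.H696.QC.t_T3 a_MEAS a_IND a_FRZ a_ALG a_OV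
theorem a_M4 : S_M4 := Pool.Agent.H100.QC.t_M4 a_MEAS a_IND a_FRZ a_ALG a_OV
theorem a_M2 : S_M2 := Pool.Agent.H200.QC.t_M2 a_MEAS a_IND a_FRZ a_ALG a_OV
theorem a_DUAL : S_DUAL := Pool.Agent.H686.QC.t_DUAL
theorem a_TH : S_TH := Pool.Agent.H344.QC.t_TH
theorem a_PH : S_PH := Pool.Agent.H344.QC.t_PH
theorem a_F4 : S_F4 := Pool.Agent.H665.QC.t_F4
theorem a_B2 : S_B2 := Pool.Agent.H187.QC.t_B2
theorem a_BC : S_BC := Pool.Agent.H353.QC.t_BC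
theorem a_LV : S_LV := Pool.Agent.H550.QC.t_LV
theorem a_CHN : S_CHN := Pool.Agent.H922.QC.t_CHN
theorem a_GM : S_GM := Pool.Agent.H686.QC.t_GM
theorem a_LAW : S_LAW := Pool.Agent.H277.QC.t_LAW
theorem a_LINK : S_LINK := Pool.Agent.H722.QC.t_LINK
theorem a_TOR : S_TOR := Pool.Agent.H404.QC.t_TORB Pool.Agent.H81.QC.t_TORA
theorem a_BLK : S_BLK := Pool.Agent.H339.QC.t_BLK
theorem a_STEP : S_STEP := Pool.Agent.H236.QC.t_STEP a_FRZ
theorem a_BASE : S_BASE := Pool.Agent.H980.QC.BASE.t_BASE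
theorem a_INIT : S_INIT := Pool.Agent.H264.QC.t_INIT
theorem a_CHAIN : S_CHAIN := Pool.Agent.H236.QC.t_CHAIN

theorem a_MQ : S_MQ :=
  a_CHAIN a_RR
    (a_STEP a_MEAS a_IND a_DUAL a_CHN a_GM a_LV a_RR a_M2
      (a_BLK a_RR a_HH a_OV a_GS a_B2 a_BC a_F4 a_M2 a_MEAS a_DUAL a_UU a_CLN a_M4 a_T1 a_T3 a_TH a_PH))
    (a_BASE a_MEAS a_DUAL a_RR a_M2 a_B2 a_UU a_OV a_GS)
    (a_INIT a_MEAS a_IND a_DUAL a_CHN a_GM a_RR a_M2 a_BC a_UU a_OV a_CLN)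

end Pool.Agent.H964.QC
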